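import Pool.Agent.ZPT.Stmts

/-!
Squad ZPT, row HI: the Hecke power sums of `J` are invariant.
-/

set_option autoImplicit false

namespace Pool.Agent.ZPT.H3

open Polynomial Pool.Agent.ZPT
open scoped MatrixGroups

noncomputable section

/-- the Hecke representative -/
def HM (m : ℕ) (x : ℕ × ℕ) : Matrix (Fin 2) (Fin 2) ℤ :=
  !![(x.1 : ℤ), (x.2 : ℤ); 0, ((m / x.1 : ℕ) : ℤ)]

theorem idx_pos {m : ℕ} {x : ℕ × ℕ} (hx : x ∈ idx m) :
    0 < x.1 ∧ x.1 ∣ m ∧ 0 < m / x.1 ∧ x.1 * (m / x.1) = m := by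
  simp only [idx, Finset.mem_filter, Finset.mem_product, Nat.mem_divisors] at hx
  obtain ⟨⟨⟨h1, h2⟩, -⟩, -⟩ := hx
  have h3 : 0 < x.1 := Nat.pos_of_dvd_of_pos h1 (Nat.pos_of_ne_zero h2)
  exact ⟨h3, h1, Nat.div_pos (Nat.le_of_dvd (Nat.pos_of_ne_zero h2) h1) h3, Nat.mul_div_cancel' h1⟩

theorem ad (g : SL(2, ℤ)) : g 0 0 * g 1 1 - g 0 1 * g 1 0 = 1 := by
  have := g.det_coe
  rw [Matrix.det_fin_two] at this
  exact this

theorem hf (hHF : HFStmt) {m : ℕ} (hm : 1 ≤ m) (g : SL(2, ℤ)) {x : ℕ × ℕ} (hx : x ∈ idx m) :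
    ∃ y ∈ idx m, ∃ h : SL(2, ℤ), HM m x * (g : Matrix (Fin 2) (Fin 2) ℤ) =
      (h : Matrix (Fin 2) (Fin 2) ℤ) * HM m y := by
  obtain ⟨h1, h2, h3, h4⟩ := idx_pos hx
  have hg := ad g
  have hmul : (x.1 : ℤ) * ((m / x.1 : ℕ) : ℤ) = m := by exact_mod_cast h4
  obtain ⟨p, q, r, s, hps, y, hy, e1, e2, e3, e4⟩ := hHF m hm
    ((x.1 : ℤ) * g 0 0 + (x.2 : ℤ) * g 1 0) ((x.1 : ℤ) * g 0 1 + (x.2 : ℤ) * g 1 1)
    (((m / x.1 : ℕ) : ℤ) * g 1 0) (((m / x.1 : ℕ) : ℤ) * g 1 1) (by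
      linear_combination (((x.1 : ℤ) * ((m / x.1 : ℕ) : ℤ))) * hg + hmul)
  refine ⟨y, hy, ⟨!![p, q; r, s], by rw [Matrix.det_fin_two_of]; exact hps⟩, ?_⟩
  push_cast at e1 e2 e3 e4
  ext i j
  fin_cases i <;> fin_cases j
  · simp [HM, Matrix.mul_apply, Fin.sum_univ_two]
    linear_combination e1
  · simp [HM, Matrix.mul_apply, Fin.sum_univ_two]
    linear_combination e2
  · simp [HM, Matrix.mul_apply, Fin.sum_univ_two]
    linear_combination e3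
  · simp [HM, Matrix.mul_apply, Fin.sum_univ_two]
    linear_combination e4

theorem hu (hHU : HUStmt) {m : ℕ} (hm : 1 ≤ m) {x y : ℕ × ℕ} (hx : x ∈ idx m) (hy : y ∈ idx m)
    (k : SL(2, ℤ)) (h : HM m x = (k : Matrix (Fin 2) (Fin 2) ℤ) * HM m y) : x = y := by
  have hk := ad k
  have e1 := congrFun (congrFun h 0) 0
  have e2 := congrFun (congrFun h 0) 1
  have e3 := congrFun (congrFun h 1) 0
  have e4 := congrFun (congrFun h 1) 1
  simp [HM, Matrix.mul_apply, Fin.sum_univ_two] at e1 e2 e3 e4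
  apply hHU m hm x hx y hy (k 0 0) (k 0 1) (k 1 0) (k 1 1) hk
  · linear_combination e1
  · push_cast
    linear_combination e2
  · simp only [zero_eq_mul, Nat.cast_eq_zero]
    exact e3
  · push_cast
    linear_combination e4

theorem alg (X1 X2 Ng Dg δx δy Nh Dh : ℂ) (hδx : δx ≠ 0) (hDg : Dg ≠ 0) (hDh : Dh ≠ 0)
    (hδy : δy ≠ 0) (hN : X1 * Ng + X2 * Dg = δy * Nh) (hD : δx * Dg = δy * Dh) :
    (X1 * (Ng / Dg) + X2) / δx * Dh = Nh := by
  have : (X1 * (Ng / Dg) + X2) / δx = (X1 * Ng + X2 * Dg) / (δx * Dg) := by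
    field_simp
  rw [this, hN, hD]
  field_simp

theorem jeq (hJI : JIStmt) {m : ℕ} (g : SL(2, ℤ)) (z : UpperHalfPlane) {x y : ℕ × ℕ}
    (hx : x ∈ idx m) (hy : y ∈ idx m) (h : SL(2, ℤ))
    (e : HM m x * (g : Matrix (Fin 2) (Fin 2) ℤ) = (h : Matrix (Fin 2) (Fin 2) ℤ) * HM m y) :
    J (hpt m x ((g • z : UpperHalfPlane) : ℂ)) = J (hpt m y (z : ℂ)) := by
  obtain ⟨x1, -, x3, -⟩ := idx_pos hx
  obtain ⟨y1, -, y3, -⟩ := idx_pos hy
  have him : 0 < (hpt m y (z : ℂ)).im := by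
    have hz := z.im_pos
    have e1 : hpt m y (z : ℂ) = ((y.1 : ℝ) / ((m / y.1 : ℕ) : ℝ) : ℝ) * (z : ℂ) +
        (((y.2 : ℝ) / ((m / y.1 : ℕ) : ℝ) : ℝ) : ℂ) := by
      unfold hpt
      push_cast
      ring
    rw [e1, Complex.add_im, Complex.im_ofReal_mul, Complex.ofReal_im, add_zero]
    have y1' : (0 : ℝ) < y.1 := by exact_mod_cast y1
    have y3' : (0 : ℝ) < ((m / y.1 : ℕ) : ℝ) := by exact_mod_cast y3
    exact mul_pos (div_pos y1' y3') hz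
  set w : UpperHalfPlane := ⟨hpt m y (z : ℂ), him⟩ with hw
  have hwc : (w : ℂ) = hpt m y (z : ℂ) := rfl
  have hkey : hpt m x ((g • z : UpperHalfPlane) : ℂ) = ((h • w : UpperHalfPlane) : ℂ) := by
    have f1 := congrFun (congrFun e 0) 0
    have f2 := congrFun (congrFun e 0) 1
    have f3 := congrFun (congrFun e 1) 0
    have f4 := congrFun (congrFun e 1) 1
    simp only [HM, Matrix.mul_apply, Fin.sum_univ_two, Matrix.of_apply, Matrix.cons_val_zero,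
      Matrix.cons_val_one, Matrix.cons_val_fin_one, mul_zero, zero_mul, add_zero, zero_add] at f1 f2 f3 f4
    have c1 : ((x.1 : ℂ) * (g 0 0 : ℤ) + (x.2 : ℂ) * (g 1 0 : ℤ)) = (h 0 0 : ℤ) * (y.1 : ℂ) := by
      have := congrArg (fun t : ℤ => (t : ℂ)) f1
      simpa only [Int.cast_mul, Int.cast_add, Int.cast_natCast] using this
    have c2 : ((x.1 : ℂ) * (g 0 1 : ℤ) + (x.2 : ℂ) * (g 1 1 : ℤ)) =
        (h 0 0 : ℤ) * (y.2 : ℂ) + (h 0 1 : ℤ) * ((m / y.1 : ℕ) : ℂ) := by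
      have := congrArg (fun t : ℤ => (t : ℂ)) f2
      simpa only [Int.cast_mul, Int.cast_add, Int.cast_natCast] using this
    have c3 : ((m / x.1 : ℕ) : ℂ) * (g 1 0 : ℤ) = (h 1 0 : ℤ) * (y.1 : ℂ) := by
      have := congrArg (fun t : ℤ => (t : ℂ)) f3
      simpa only [Int.cast_mul, Int.cast_add, Int.cast_natCast] using this
    have c4 : ((m / x.1 : ℕ) : ℂ) * (g 1 1 : ℤ) =
        (h 1 0 : ℤ) * (y.2 : ℂ) + (h 1 1 : ℤ) * ((m / y.1 : ℕ) : ℂ) := by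
      have := congrArg (fun t : ℤ => (t : ℂ)) f4
      simpa only [Int.cast_mul, Int.cast_add, Int.cast_natCast] using this
    have hδx : ((m / x.1 : ℕ) : ℂ) ≠ 0 := by exact_mod_cast x3.ne'
    have hδy : ((m / y.1 : ℕ) : ℂ) ≠ 0 := by exact_mod_cast y3.ne'
    have hden1 : ((g 1 0 : ℤ) : ℂ) * (z : ℂ) + ((g 1 1 : ℤ) : ℂ) ≠ 0 := by
      have := UpperHalfPlane.denom_ne_zero (g : GL (Fin 2) ℝ) z
      rw [UpperHalfPlane.denom] at this
      simpa using this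
    have hden2 : ((h 1 0 : ℤ) : ℂ) * hpt m y (z : ℂ) + ((h 1 1 : ℤ) : ℂ) ≠ 0 := by
      have := UpperHalfPlane.denom_ne_zero (h : GL (Fin 2) ℝ) w
      rw [UpperHalfPlane.denom, hwc] at this
      simpa using this
    rw [UpperHalfPlane.coe_specialLinearGroup_apply, UpperHalfPlane.coe_specialLinearGroup_apply,
      hwc]
    simp only [algebraMap_int_eq, eq_intCast, Complex.ofReal_intCast]
    rw [eq_div_iff hden2]
    unfold hpt at hden2 ⊢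
    generalize ((m / x.1 : ℕ) : ℂ) = δx at *
    generalize ((m / y.1 : ℕ) : ℂ) = δy at *
    obtain ⟨v, hv⟩ : ∃ v : ℂ, v = ((y.1 : ℂ) * (z : ℂ) + (y.2 : ℂ)) / δy := ⟨_, rfl⟩
    have hv' : (y.1 : ℂ) * (z : ℂ) + (y.2 : ℂ) = δy * v := by
      rw [hv]
      field_simp
    rw [← hv] at hden2 ⊢
    have hN : (x.1 : ℂ) * (((g 0 0 : ℤ) : ℂ) * z + ((g 0 1 : ℤ) : ℂ)) +
        (x.2 : ℂ) * (((g 1 0 : ℤ) : ℂ) * z + ((g 1 1 : ℤ) : ℂ)) =
        δy * (((h 0 0 : ℤ) : ℂ) * v + ((h 0 1 : ℤ) : ℂ)) := by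
      linear_combination (z : ℂ) * c1 + c2 + ((h 0 0 : ℤ) : ℂ) * hv'
    have hD : δx * (((g 1 0 : ℤ) : ℂ) * z + ((g 1 1 : ℤ) : ℂ)) =
        δy * (((h 1 0 : ℤ) : ℂ) * v + ((h 1 1 : ℤ) : ℂ)) := by
      linear_combination (z : ℂ) * c3 + c4 + ((h 1 0 : ℤ) : ℂ) * hv'
    exact alg _ _ _ _ _ _ _ _ hδx hden1 hden2 hδy hN hD
  rw [hkey, hJI h w]

theorem hi (hJI : JIStmt) (hHF : HFStmt) (hHU : HUStmt) : HIStmt := by
  classical
  intro m hm k g z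
  choose! φ hφ h hh using fun x (hx : x ∈ idx m) => hf hHF hm g hx
  have hinj : Set.InjOn φ (idx m : Set (ℕ × ℕ)) := by
    intro x hx x' hx' hxx
    have e1 := hh x hx
    have e2 := hh x' hx'
    rw [hxx] at e1
    have e3 : HM m x = ((h x * (h x')⁻¹ : SL(2, ℤ)) : Matrix (Fin 2) (Fin 2) ℤ) * HM m x' := by
      have e4 : HM m (φ x') = (((h x')⁻¹ : SL(2, ℤ)) : Matrix (Fin 2) (Fin 2) ℤ) *
          (HM m x' * (g : Matrix (Fin 2) (Fin 2) ℤ)) := by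
        rw [e2, ← Matrix.mul_assoc, ← Matrix.SpecialLinearGroup.coe_mul, inv_mul_cancel,
          Matrix.SpecialLinearGroup.coe_one, Matrix.one_mul]
      have e5 : HM m x = HM m x * (g : Matrix (Fin 2) (Fin 2) ℤ) *
          ((g⁻¹ : SL(2, ℤ)) : Matrix (Fin 2) (Fin 2) ℤ) := by
        rw [Matrix.mul_assoc, ← Matrix.SpecialLinearGroup.coe_mul, mul_inv_cancel,
          Matrix.SpecialLinearGroup.coe_one, Matrix.mul_one]
      have e6 : HM m x' = HM m x' * (g : Matrix (Fin 2) (Fin 2) ℤ) *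
          ((g⁻¹ : SL(2, ℤ)) : Matrix (Fin 2) (Fin 2) ℤ) := by
        rw [Matrix.mul_assoc, ← Matrix.SpecialLinearGroup.coe_mul, mul_inv_cancel,
          Matrix.SpecialLinearGroup.coe_one, Matrix.mul_one]
      rw [e5, e1, e4, Matrix.SpecialLinearGroup.coe_mul]
      simp only [Matrix.mul_assoc]
      rw [← Matrix.SpecialLinearGroup.coe_mul g g⁻¹, mul_inv_cancel,
        Matrix.SpecialLinearGroup.coe_one, Matrix.mul_one]
    exact hu hHU hm hx hx' _ e3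
  have himg : (idx m).image φ = idx m := by
    apply Finset.eq_of_subset_of_card_le
    · intro y hy
      obtain ⟨x, hx, rfl⟩ := Finset.mem_image.mp hy
      exact hφ x hx
    · rw [Finset.card_image_of_injOn hinj]
  calc ∑ x ∈ idx m, J (hpt m x ((g • z : UpperHalfPlane) : ℂ)) ^ k =
      ∑ x ∈ idx m, J (hpt m (φ x) (z : ℂ)) ^ k := by
        apply Finset.sum_congr rfl
        intro x hx
        rw [jeq hJI g z hx (hφ x hx) (h x) (hh x hx)]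
    _ = ∑ y ∈ (idx m).image φ, J (hpt m y (z : ℂ)) ^ k := by
        rw [Finset.sum_image hinj]
    _ = _ := by rw [himg]

end

end Pool.Agent.ZPT.H3
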