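import Pool.Agent.ZPT.Stmts

/-!
Squad ZPT, row UE: the power series of `E₄ ^ 3` and of `Δ / q`.
-/

set_option autoImplicit false

namespace Pool.Agent.ZPT.H3U

open Polynomial Pool.Agent.ZPT
open scoped MatrixGroups ArithmeticFunction.sigma

noncomputable section

/-- integral series of `E₄` -/
def P4 : PowerSeries ℤ := PowerSeries.mk fun n => if n = 0 then 1 else 240 * (σ 3 n : ℤ)

/-- integral series of `E₆` -/
def P6 : PowerSeries ℤ := PowerSeries.mk fun n => if n = 0 then 1 else -504 * (σ 5 n : ℤ)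

/-- to rational coefficients -/
def rt (A : PowerSeries ℤ) : PowerSeries ℚ := PowerSeries.map (Int.castRingHom ℚ) A

theorem rt_coeff (A : PowerSeries ℤ) (n : ℕ) :
    PowerSeries.coeff n (rt A) = ((PowerSeries.coeff n A : ℤ) : ℚ) := by
  simp [rt, PowerSeries.coeff_map]

/-- absolute convergence in the unit disc -/
def SS (A : PowerSeries ℚ) : Prop := ∀ ρ : ℝ, 0 ≤ ρ → ρ < 1 →
  Summable fun n : ℕ => |((PowerSeries.coeff n A : ℚ) : ℝ)| * ρ ^ n

theorem ss_mul (hEV : EVStmt) {A B : PowerSeries ℚ} (hA : SS A) (hB : SS B) : SS (A * B) := by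
  intro ρ h0 h1
  have hA' := hA ρ h0 h1
  have hB' := hB ρ h0 h1
  have := (hEV ℝ A B ρ (by simpa only [Real.norm_eq_abs, abs_of_nonneg h0] using hA')
    (by simpa only [Real.norm_eq_abs, abs_of_nonneg h0] using hB')).1
  simpa only [Real.norm_eq_abs, abs_of_nonneg h0] using this

theorem nq (x : ℚ) : ‖((x : ℚ) : ℂ)‖ = |((x : ℚ) : ℝ)| := by
  have : ((x : ℚ) : ℂ) = (((x : ℚ) : ℝ) : ℂ) := by push_cast; rfl
  rw [this, Complex.norm_real, Real.norm_eq_abs]

theorem ss_ev (hEV : EVStmt) {A B : PowerSeries ℚ} (hA : SS A) (hB : SS B) {q : ℂ} (hq : ‖q‖ < 1) :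
    ∑' n : ℕ, ((PowerSeries.coeff n (A * B) : ℚ) : ℂ) * q ^ n =
    (∑' n : ℕ, ((PowerSeries.coeff n A : ℚ) : ℂ) * q ^ n) *
      ∑' n : ℕ, ((PowerSeries.coeff n B : ℚ) : ℂ) * q ^ n :=
  (hEV ℂ A B q (by simpa only [nq] using hA _ (norm_nonneg q) hq)
    (by simpa only [nq] using hB _ (norm_nonneg q) hq)).2

theorem ss_summable {A : PowerSeries ℚ} (hA : SS A) {q : ℂ} (hq : ‖q‖ < 1) :
    Summable fun n : ℕ => ((PowerSeries.coeff n A : ℚ) : ℂ) * q ^ n := by
  apply Summable.of_norm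
  have := hA _ (norm_nonneg q) hq
  simpa only [norm_mul, nq, norm_pow] using this

theorem ss_bound {A : PowerSeries ℚ} {C : ℝ} {k : ℕ}
    (h : ∀ n, |((PowerSeries.coeff n A : ℚ) : ℝ)| ≤ 1 + C * (n : ℝ) ^ k) : SS A := by
  intro ρ h0 h1
  have hn : ‖ρ‖ < 1 := by rw [Real.norm_eq_abs, abs_of_nonneg h0]; exact h1
  have s1 : Summable fun n : ℕ => ρ ^ n := summable_geometric_of_lt_one h0 h1
  have s2 : Summable fun n : ℕ => (n : ℝ) ^ k * ρ ^ n :=
    summable_pow_mul_geometric_of_norm_lt_one k hn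
  apply Summable.of_nonneg_of_le (fun n => by positivity) _ (s1.add (s2.mul_left C))
  intro n
  have h2 : 0 ≤ ρ ^ n := pow_nonneg h0 n
  have := mul_le_mul_of_nonneg_right (h n) h2
  linarith

theorem ss_P4 : SS (rt P4) := by
  apply ss_bound (C := 240) (k := 4)
  intro n
  rw [rt_coeff, P4, PowerSeries.coeff_mk]
  by_cases hn : n = 0
  · subst hn
    simp
  · rw [if_neg hn]
    have h1 : (σ 3 n : ℝ) ≤ (n : ℝ) ^ 4 := by
      exact_mod_cast ArithmeticFunction.sigma_le_pow_succ 3 n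
    have h2 : (0 : ℝ) ≤ (σ 3 n : ℝ) := Nat.cast_nonneg _
    push_cast
    rw [abs_of_nonneg (by positivity)]
    linarith

theorem ss_P6 : SS (rt P6) := by
  apply ss_bound (C := 504) (k := 6)
  intro n
  rw [rt_coeff, P6, PowerSeries.coeff_mk]
  by_cases hn : n = 0
  · subst hn
    simp
  · rw [if_neg hn]
    have h1 : (σ 5 n : ℝ) ≤ (n : ℝ) ^ 6 := by
      exact_mod_cast ArithmeticFunction.sigma_le_pow_succ 5 n
    have h2 : (0 : ℝ) ≤ (σ 5 n : ℝ) := Nat.cast_nonneg _
    push_cast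
    rw [abs_of_nonpos (by linarith)]
    linarith

theorem ee_lt (z : UpperHalfPlane) : ‖ee z‖ < 1 := UpperHalfPlane.norm_exp_two_pi_I_lt_one z

theorem ee_q (z : UpperHalfPlane) : Function.Periodic.qParam (1 : ℝ) (z : ℂ) = ee z := by
  unfold Function.Periodic.qParam ee
  rw [Complex.ofReal_one, div_one]

theorem e4 (z : UpperHalfPlane) :
    ∑' n : ℕ, ((PowerSeries.coeff n (rt P4) : ℚ) : ℂ) * ee z ^ n = ModularForm.E₄ z := by
  have h := ModularForm.hasSum_qExpansion (f := ModularForm.E₄) one_pos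
    one_mem_strictPeriods_SL z
  rw [← h.tsum_eq]
  apply tsum_congr
  intro n
  rw [ee_q, EisensteinSeries.E_qExpansion_coeff (by norm_num) ⟨2, rfl⟩, rt_coeff, P4,
    PowerSeries.coeff_mk]
  congr 1
  by_cases hn : n = 0
  · simp [hn]
  · rw [if_neg hn, if_neg hn]
    have hb : _root_.bernoulli 4 = -1 / 30 := by decide +kernel
    rw [hb]
    push_cast
    norm_num

theorem e6 (z : UpperHalfPlane) :
    ∑' n : ℕ, ((PowerSeries.coeff n (rt P6) : ℚ) : ℂ) * ee z ^ n = ModularForm.E₆ z := by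
  have h := ModularForm.hasSum_qExpansion (f := ModularForm.E₆) one_pos
    one_mem_strictPeriods_SL z
  rw [← h.tsum_eq]
  apply tsum_congr
  intro n
  rw [ee_q, EisensteinSeries.E_qExpansion_coeff (by norm_num) ⟨3, rfl⟩, rt_coeff, P6,
    PowerSeries.coeff_mk]
  congr 1
  by_cases hn : n = 0
  · simp [hn]
  · rw [if_neg hn, if_neg hn]
    have hb : _root_.bernoulli 6 = 1 / 42 := by decide +kernel
    rw [hb]
    push_cast
    norm_num

/-- the difference -/
def PD : PowerSeries ℤ := P4 * P4 * P4 - P6 * P6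

/-- the series of `Δ / q` -/
def DD : PowerSeries ℚ := PowerSeries.mk fun n => ((PowerSeries.coeff (n + 1) PD : ℤ) : ℚ) / 1728

theorem rt_mul (A B : PowerSeries ℤ) : rt (A * B) = rt A * rt B := by
  simp [rt]

theorem rt_sub (A B : PowerSeries ℤ) : rt (A - B) = rt A - rt B := by
  simp [rt]

theorem ss_sub {A B : PowerSeries ℚ} (hA : SS A) (hB : SS B) : SS (A - B) := by
  intro ρ h0 h1
  apply Summable.of_nonneg_of_le (fun n => by positivity) _ ((hA ρ h0 h1).add (hB ρ h0 h1))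
  intro n
  have h2 : 0 ≤ ρ ^ n := pow_nonneg h0 n
  rw [map_sub, ← add_mul]
  apply mul_le_mul_of_nonneg_right _ h2
  push_cast
  exact abs_sub _ _

theorem coeff_DD (n : ℕ) : PowerSeries.coeff n DD = PowerSeries.coeff (n + 1) (rt PD) / 1728 := by
  rw [DD, PowerSeries.coeff_mk, rt_coeff]

theorem PD0 : PowerSeries.coeff 0 PD = 0 := by
  simp [PD, P4, P6]

theorem PD1 : PowerSeries.coeff 1 PD = 1728 := by
  simp [PD, P4, P6, PowerSeries.coeff_mul, Finset.Nat.antidiagonal_succ]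

theorem ss_DD (hPD : SS (rt PD)) : SS DD := by
  have key : ∀ ρ : ℝ, 0 < ρ → ρ < 1 →
      Summable fun n : ℕ => |((PowerSeries.coeff n DD : ℚ) : ℝ)| * ρ ^ n := by
    intro ρ h0 h1
    have h2 := (summable_nat_add_iff 1).mpr (hPD ρ h0.le h1)
    have h3 := h2.mul_left (1 / (1728 * ρ))
    apply h3.congr
    intro n
    rw [coeff_DD]
    push_cast
    rw [abs_div, abs_of_pos (show (0 : ℝ) < 1728 by norm_num), pow_succ]
    field_simp
  intro ρ h0 h1
  have h2 := key (max ρ (1 / 2)) (lt_max_of_lt_right (by norm_num)) (max_lt h1 (by norm_num))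
  apply Summable.of_nonneg_of_le (fun n => by positivity) _ h2
  intro n
  exact mul_le_mul_of_nonneg_left (pow_le_pow_left₀ h0 (le_max_left _ _) n) (abs_nonneg _)

theorem ue (hEV : EVStmt) : UEStmt := by
  have s44 := ss_mul hEV ss_P4 ss_P4
  have s444 := ss_mul hEV s44 ss_P4
  have s66 := ss_mul hEV ss_P6 ss_P6
  have hrt : rt PD = rt P4 * rt P4 * rt P4 - rt P6 * rt P6 := by
    rw [PD, rt_sub, rt_mul, rt_mul, rt_mul]
  have sPD : SS (rt PD) := by
    rw [hrt]
    exact ss_sub s444 s66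
  refine ⟨rt (P4 * P4 * P4), DD, ?_, ?_, ?_, ?_, ?_, ss_DD sPD, ?_⟩
  · rw [rt_coeff]
    simp [P4]
  · rw [DD, PowerSeries.coeff_mk, zero_add, PD1]
    norm_num
  · intro p hp h5 n
    have : Fact p.Prime := ⟨hp⟩
    rw [rt_coeff]
    exact padicNorm.of_int _
  · intro p hp h5 n
    have : Fact p.Prime := ⟨hp⟩
    rw [DD, PowerSeries.coeff_mk, padicNorm.div]
    have h1 : padicNorm p 1728 = 1 := by
      have h2 : padicNorm p ((1728 : ℕ) : ℚ) = 1 := by
        rw [padicNorm.nat_eq_one_iff]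
        intro hdvd
        have h3 : (1728 : ℕ) = 2 ^ 6 * 3 ^ 3 := by norm_num
        rw [h3] at hdvd
        rcases (Nat.Prime.dvd_mul hp).mp hdvd with h | h
        · have := (Nat.prime_dvd_prime_iff_eq hp Nat.prime_two).mp (hp.dvd_of_dvd_pow h)
          omega
        · have := (Nat.prime_dvd_prime_iff_eq hp Nat.prime_three).mp (hp.dvd_of_dvd_pow h)
          omega
      exact_mod_cast h2
    rw [h1, div_one]
    exact padicNorm.of_int _
  · rw [rt_mul, rt_mul]
    exact s444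
  · intro z
    have hq := ee_lt z
    have h44 := ss_ev hEV ss_P4 ss_P4 hq
    have h444 := ss_ev hEV s44 ss_P4 hq
    have h66 := ss_ev hEV ss_P6 ss_P6 hq
    rw [e4] at h44
    rw [h44, e4] at h444
    rw [e6] at h66
    constructor
    · rw [rt_mul, rt_mul, h444]
      ring
    · have hs := ss_summable sPD hq
      have h1 : ∑' n : ℕ, ((PowerSeries.coeff n (rt PD) : ℚ) : ℂ) * ee z ^ n =
          ModularForm.E₄ z ^ 3 - ModularForm.E₆ z ^ 2 := by
        have e : ∀ n : ℕ, ((PowerSeries.coeff n (rt PD) : ℚ) : ℂ) * ee z ^ n =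
            ((PowerSeries.coeff n (rt P4 * rt P4 * rt P4) : ℚ) : ℂ) * ee z ^ n -
            ((PowerSeries.coeff n (rt P6 * rt P6) : ℚ) : ℂ) * ee z ^ n := by
          intro n
          rw [hrt, map_sub]
          push_cast
          ring
        rw [tsum_congr e, (ss_summable s444 hq).tsum_sub (ss_summable s66 hq), h444, h66]
        ring
      have h2 := hs.tsum_eq_zero_add
      rw [h1] at h2
      have h3 : ((PowerSeries.coeff 0 (rt PD) : ℚ) : ℂ) = 0 := by
        rw [rt_coeff, PD0]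
        simp
      rw [h3, zero_mul, zero_add] at h2
      rw [ModularForm.discriminant_eq_E₄_cube_sub_E₆_sq, h2, ← tsum_mul_left, ← tsum_div_const]
      apply tsum_congr
      intro n
      rw [coeff_DD]
      push_cast
      rw [pow_succ]
      ring

end

end Pool.Agent.ZPT.H3U
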